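import Pool.Agent.H974R4.W2.Close
import Pool.Agent.H31R3.Kes.Inputs

/-!
Crossing probabilities of rectangles beyond the critical window.
-/

set_option autoImplicit false

namespace H985CW

open H974 Finset

/-- gluing of long crossings -/
theorem strip {p : ℝ} (h0 : 0 ≤ p) (h1 : p ≤ 1) {M : ℕ} (hM : 2 ≤ M) (k : ℕ) :
    1 - (2 * k + 1) * eps p M ≤ hh p (2 * M + k * (M + 1)) (M - 1) := by
  have hM' : (2:ℤ) ≤ M := by exact_mod_cast hM
  have e0 := eps_nonneg h0 h1 M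
  have hbase : 1 - eps p M ≤ hh p (2 * M) (M - 1) := by unfold eps; linarith
  have hsq : 1 - eps p M ≤ hh p ((M:ℤ) - 1) (M - 1) :=
    hbase.trans (hh_mono h0 h1 (by omega) (by omega) le_rfl)
  induction k with
  | zero => simpa using hbase
  | succ k ih =>
    have h := glue_union (q := p) h0 h1 (w1 := 2 * (M:ℤ) + k * (M + 1)) (w2 := 2 * (M:ℤ))
      (v := (M:ℤ) - 1) (h := (M:ℤ) - 1) (by omega) (by
        have : (0:ℤ) ≤ k * ((M:ℤ) + 1) := by positivity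
        omega) (by omega) (by omega) (a := (2 * k + 1) * eps p M) (b := eps p M) (c := eps p M)
      ih hbase hsq
    have e1 : 2 * (M:ℤ) + k * (M + 1) + 2 * M - (M - 1) = 2 * M + ((k + 1 : ℕ) : ℤ) * (M + 1) := by
      push_cast; ring
    rw [e1] at h
    refine le_trans (le_of_eq ?_) h
    push_cast
    ring

theorem far0 : ∀ ε : ℝ, 0 < ε → ∃ N0 : ℕ, ∀ N : ℕ, N0 ≤ N → ∀ p : ℝ,
    1/2 + (N:ℝ)^(-(3/4) + ε) ≤ p → p ≤ 1 → eps p N ≤ 1/100 :=
  H31K.far_of_R3 (far_of_W2 stW2)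

/-- crossings of rectangles above the window -/
theorem far_rect (Λ : ℕ) (hΛ : 1 ≤ Λ) (ε η : ℝ) (hε : 0 < ε) (hε1 : ε ≤ 1/2) (hη : 0 < η) :
    ∃ n0 : ℕ, ∀ n : ℕ, n0 ≤ n → ∀ a b : ℕ, 1 ≤ a → a ≤ Λ * n → n ≤ Λ * b → ∀ p : ℝ,
      1/2 + (n:ℝ)^(-(3/4) + ε) ≤ p → p ≤ 1 → 1 - η ≤ hh p a b := by
  obtain ⟨N0, hN0⟩ := far0 (ε/2) (by linarith)
  set δ : ℝ := ε/3 with hδ
  have hδ0 : 0 < δ := by positivity
  have hΛr : (1:ℝ) ≤ Λ := by exact_mod_cast hΛ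
  -- limits
  have t1 : Filter.Tendsto (fun n : ℕ => (n:ℝ)^(δ/2)) Filter.atTop Filter.atTop :=
    (tendsto_rpow_atTop (by linarith)).comp tendsto_natCast_atTop_atTop
  have t2 : Filter.Tendsto (fun n : ℕ => (n:ℝ)^(1 - δ)) Filter.atTop Filter.atTop :=
    (tendsto_rpow_atTop (by linarith)).comp tendsto_natCast_atTop_atTop
  have t3 : Filter.Tendsto (fun n : ℕ => (n:ℝ)^(ε/4)) Filter.atTop Filter.atTop :=
    (tendsto_rpow_atTop (by linarith)).comp tendsto_natCast_atTop_atTop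
  have e1 := t1.eventually (Filter.eventually_ge_atTop (max (2 * (Λ:ℝ)) ((64 * Λ + 16) / η)))
  have e2 := t2.eventually (Filter.eventually_ge_atTop (max (N0 + 2 : ℝ) 4))
  have e3 := t3.eventually (Filter.eventually_ge_atTop (2:ℝ))
  obtain ⟨n0, hn0⟩ := Filter.eventually_atTop.mp (e1.and (e2.and (e3.and
    (Filter.eventually_ge_atTop 2))))
  refine ⟨n0, ?_⟩
  intro n hn a b ha1 ha hb p hp hp1
  obtain ⟨k1, k2, k3, k4⟩ := hn0 n hn
  have k1a := (le_max_left _ _).trans k1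
  have k1b := (le_max_right _ _).trans k1
  have k2a := (le_max_left _ _).trans k2
  have k2b := (le_max_right _ _).trans k2
  have hnr : (2:ℝ) ≤ n := by exact_mod_cast k4
  have hnp : (0:ℝ) < n := by linarith
  set N : ℕ := ⌊(n:ℝ)^(1 - δ)⌋₊ with hN
  have hNle : (N:ℝ) ≤ (n:ℝ)^(1 - δ) := Nat.floor_le (by positivity)
  have hNge : (n:ℝ)^(1 - δ) < N + 1 := Nat.lt_floor_add_one _
  have hNN0 : N0 ≤ N := by
    have : (N0:ℝ) < N := by linarith
    exact_mod_cast this.le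
  have hN2 : 2 ≤ N := by
    have : (3:ℝ) < N + 1 := by linarith
    have h : (2:ℝ) < N := by linarith
    exact_mod_cast h.le
  have hNhalf : (n:ℝ)^(1 - δ) / 2 ≤ N := by
    have : (2:ℝ) ≤ N := by exact_mod_cast hN2
    linarith
  have hNp : (0:ℝ) < N := by
    have : (2:ℝ) ≤ N := by exact_mod_cast hN2
    linarith
  have h0p : 0 ≤ p := by
    have : 0 < (n:ℝ)^(-(3/4) + ε) := by positivity
    linarith
  -- the basic scale
  have hbase : eps p N ≤ 1/100 := by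
    apply hN0 N hNN0 p _ hp1
    refine le_trans ?_ hp
    have i1 : (N:ℝ)^(-(3/4) + ε/2) ≤ ((n:ℝ)^(1 - δ) / 2)^(-(3/4) + ε/2) :=
      Real.rpow_le_rpow_of_nonpos (by positivity) hNhalf (by linarith)
    rw [Real.div_rpow (by positivity) (by norm_num), ← Real.rpow_mul hnp.le] at i1
    have i2 : (2:ℝ)^(-(3/4) + ε/2) ≥ 1/2 := by
      calc (2:ℝ)^(-(3/4) + ε/2) ≥ (2:ℝ)^(-1:ℝ) :=
            Real.rpow_le_rpow_of_exponent_le (by norm_num) (by linarith)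
        _ = 1/2 := by rw [Real.rpow_neg_one]; norm_num
    have i3 : (n:ℝ)^((1 - δ) * (-(3/4) + ε/2)) ≤ (n:ℝ)^(-(3/4) + 3 * ε/4) := by
      apply Real.rpow_le_rpow_of_exponent_le (by linarith)
      rw [hδ]
      nlinarith
    have i4 : (n:ℝ)^(-(3/4) + 3 * ε/4) * (n:ℝ)^(ε/4) = (n:ℝ)^(-(3/4) + ε) := by
      rw [← Real.rpow_add hnp]; congr 1; ring
    have i5 : 0 < (n:ℝ)^(-(3/4) + 3 * ε/4) := by positivity
    have i6 : (n:ℝ)^((1 - δ) * (-(3/4) + ε/2)) / (2:ℝ)^(-(3/4) + ε/2) ≤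
        2 * (n:ℝ)^(-(3/4) + 3 * ε/4) := by
      rw [div_le_iff₀ (by positivity)]
      nlinarith
    nlinarith
  -- number of doublings
  set y : ℝ := (n:ℝ)^(δ/2) with hy
  have hy2 : 2 ≤ y := by nlinarith
  set j : ℕ := Nat.log 2 ⌊y⌋₊ with hj
  have hfl : 2 ≤ ⌊y⌋₊ := Nat.le_floor (by exact_mod_cast hy2)
  have hj1 : (2:ℝ)^j ≤ y := by
    have h1 := Nat.pow_log_le_self 2 (show ⌊y⌋₊ ≠ 0 by omega)
    have h2 : ((2^j : ℕ):ℝ) ≤ (⌊y⌋₊ : ℝ) := by exact_mod_cast h1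
    have h3 : (⌊y⌋₊ : ℝ) ≤ y := Nat.floor_le (by linarith)
    push_cast at h2
    linarith
  have hj2 : y < (2:ℝ)^(j + 1) := by
    have h1 : ⌊y⌋₊ < 2^(j + 1) := Nat.lt_pow_succ_log_self (by norm_num) _
    have h2 : y < (⌊y⌋₊ : ℝ) + 1 := Nat.lt_floor_add_one y
    have h3 : (⌊y⌋₊ : ℝ) + 1 ≤ ((2^(j + 1) : ℕ) : ℝ) := by exact_mod_cast h1
    push_cast at h3
    linarith
  set M : ℕ := 2^j * N with hM
  have hM2 : 2 ≤ M := le_trans hN2 (Nat.le_mul_of_pos_left N (by positivity))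
  have hMr : (M:ℝ) = 2^j * N := by rw [hM]; push_cast; ring
  have hMle : (M:ℝ) ≤ (n:ℝ)^(1 - δ/2) := by
    rw [hMr]
    calc (2:ℝ)^j * N ≤ y * (n:ℝ)^(1 - δ) := mul_le_mul hj1 hNle hNp.le (by linarith)
      _ = (n:ℝ)^(1 - δ/2) := by
        rw [hy, ← Real.rpow_add hnp]; congr 1; ring
  have hMge : (n:ℝ)^(1 - δ/2) / 4 ≤ M := by
    rw [hMr]
    have i1 : y / 2 ≤ 2^j := by rw [pow_succ] at hj2; linarith
    have i2 : (n:ℝ)^(1 - δ/2) = y * (n:ℝ)^(1 - δ) := by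
      rw [hy, ← Real.rpow_add hnp]; congr 1; ring
    rw [i2]
    calc y * (n:ℝ)^(1 - δ) / 4 = (y / 2) * ((n:ℝ)^(1 - δ) / 2) := by ring
      _ ≤ 2^j * N := mul_le_mul i1 hNhalf (by positivity) (by positivity)
  have heM : 25 * eps p M ≤ y^(-(2:ℝ)) := by
    have i1 := eps_pow h0p hp1 hN2 hbase j
    rw [← hM] at i1
    refine i1.trans ?_
    rw [Real.rpow_neg (by linarith), show (2:ℝ) = ((2:ℕ):ℝ) by norm_num, Real.rpow_natCast]
    have i2 : y^2 ≤ 4^(j + 1) := by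
      have : (4:ℝ)^(j + 1) = ((2:ℝ)^(j + 1))^2 := by
        rw [← pow_mul, mul_comm, pow_mul]; norm_num
      rw [this]
      exact pow_le_pow_left₀ (by linarith) hj2.le 2
    have i3 : ((1:ℝ)/4)^(j + 1) = (4^(j + 1))⁻¹ := by
      rw [one_div, inv_pow]
    push_cast
    rw [i3]
    exact inv_anti₀ (by positivity) i2
  -- number of glued pieces
  set k : ℕ := ⌈4 * Λ * y⌉₊ with hk
  have hk1 : 4 * Λ * y ≤ k := Nat.le_ceil _
  have hk2 : (k:ℝ) < 4 * Λ * y + 1 := Nat.ceil_lt_add_one (by positivity)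
  have hwide : (a:ℝ) ≤ k * M := by
    have i1 : (a:ℝ) ≤ Λ * n := by exact_mod_cast ha
    have i2 : (n:ℝ) = y * (n:ℝ)^(1 - δ/2) := by
      rw [hy, ← Real.rpow_add hnp]
      have : δ/2 + (1 - δ/2) = 1 := by ring
      rw [this, Real.rpow_one]
    set X : ℝ := (n:ℝ)^(1 - δ/2) with hX
    calc (a:ℝ) ≤ Λ * n := i1
      _ = Λ * (y * X) := by rw [← i2]
      _ = (4 * Λ * y) * (X / 4) := by ring
      _ ≤ k * M := mul_le_mul hk1 hMge (by positivity) (by positivity)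
  have hwide' : (a:ℤ) ≤ 2 * M + k * (M + 1) := by
    have : (a:ℤ) ≤ k * M := by exact_mod_cast hwide
    have h3 : (0:ℤ) ≤ k := by positivity
    nlinarith
  have hhigh : (M:ℤ) - 1 ≤ b := by
    have i1 : (n:ℝ) ≤ Λ * b := by exact_mod_cast hb
    have i2 : (n:ℝ) = y * (n:ℝ)^(1 - δ/2) := by
      rw [hy, ← Real.rpow_add hnp]
      have : δ/2 + (1 - δ/2) = 1 := by ring
      rw [this, Real.rpow_one]
    have i3 : (Λ:ℝ) * M ≤ Λ * b := by
      have h5 : 0 < (n:ℝ)^(1 - δ/2) := by positivity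
      calc (Λ:ℝ) * M ≤ Λ * (n:ℝ)^(1 - δ/2) := mul_le_mul_of_nonneg_left hMle (by linarith)
        _ ≤ y * (n:ℝ)^(1 - δ/2) := mul_le_mul_of_nonneg_right (by linarith) h5.le
        _ = n := i2.symm
        _ ≤ Λ * b := i1
    have i4 : (M:ℝ) ≤ b := le_of_mul_le_mul_left i3 (by linarith)
    have : (M:ℤ) ≤ b := by exact_mod_cast i4
    omega
  have hs := strip h0p hp1 hM2 k
  have hmono : hh p (2 * M + k * (M + 1)) (M - 1) ≤ hh p a b :=
    hh_mono h0p hp1 (by omega) hwide' hhigh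
  have heps := eps_nonneg h0p hp1 M
  have hfin : (2 * (k:ℝ) + 1) * eps p M ≤ η := by
    have i1 : 2 * (k:ℝ) + 1 ≤ (8 * Λ + 2) * y := by nlinarith
    have i2 : y^(-(2:ℝ)) = (y * y)⁻¹ := by
      rw [Real.rpow_neg (by linarith), show (2:ℝ) = ((2:ℕ):ℝ) by norm_num, Real.rpow_natCast, sq]
    rw [i2] at heM
    have i3 : eps p M ≤ (y * y)⁻¹ := by linarith
    have hy0 : 0 < y := by linarith
    calc (2 * (k:ℝ) + 1) * eps p M ≤ ((8 * Λ + 2) * y) * (y * y)⁻¹ :=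
          mul_le_mul i1 i3 heps (by positivity)
      _ = (8 * Λ + 2) / y := by field_simp
      _ ≤ η := by
        rw [div_le_iff₀ hy0]
        rw [div_le_iff₀ hη] at k1b
        nlinarith
  linarith

/-- below the window, by duality -/
theorem far_rect' (Λ : ℕ) (hΛ : 1 ≤ Λ) (ε η : ℝ) (hε : 0 < ε) (hε1 : ε ≤ 1/2) (hη : 0 < η) :
    ∃ n0 : ℕ, ∀ n : ℕ, n0 ≤ n → ∀ a b : ℕ, n ≤ Λ * a → b ≤ Λ * n → ∀ p : ℝ,
      p ≤ 1/2 - (n:ℝ)^(-(3/4) + ε) → 0 ≤ p → hh p a b ≤ η := by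
  obtain ⟨n0, h⟩ := far_rect (2 * Λ) (by omega) ε η hε hε1 hη
  refine ⟨max n0 (4 * Λ), ?_⟩
  intro n hn a b ha hb p hp hp0
  have hn0 : n0 ≤ n := (le_max_left _ _).trans hn
  have hn1 : 4 * Λ ≤ n := (le_max_right _ _).trans hn
  have ha4 : 4 ≤ a := by
    by_contra hcon
    have : a ≤ 3 := by omega
    have : Λ * a ≤ Λ * 3 := Nat.mul_le_mul_left _ this
    omega
  have h2 := h n hn0 (b + 1) (a - 1) (by omega) (by nlinarith) (by
    have : Λ * a ≤ 2 * Λ * (a - 1) := by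
      have e : a ≤ 2 * (a - 1) := by omega
      calc Λ * a ≤ Λ * (2 * (a - 1)) := Nat.mul_le_mul_left _ e
        _ = 2 * Λ * (a - 1) := by ring
    omega) (1 - p) (by linarith) (by linarith)
  have h3 := hh_dual (q := p) (w := (a:ℤ)) (h := (b:ℤ)) (by omega) (by omega)
  have e1 : (((b + 1 : ℕ)) : ℤ) = (b:ℤ) + 1 := by push_cast; ring
  have e2 : (((a - 1 : ℕ)) : ℤ) = (a:ℤ) - 1 := by omega
  rw [e1, e2] at h2
  linarith

end H985CW
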